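import Pool.Agent.Helper69.WS.St
import Pool.Agent.Helper15.AB.M_MT

/-! Project WS, module TUR: the inequality of Turan. -/

set_option autoImplicit false

namespace Pool.Agent.Helper62.WS

open Pool.Agent.Helper69.WS Filter Topology

/-- the primes up to `Y` -/
private noncomputable def PY (Y : ℕ) : Finset ℕ := (Finset.Icc 1 Y).filter Nat.Prime

open Classical in
/-- the indicator of the congruence -/
private noncomputable def ind (n : ℤ) (p : ℕ) (t : ℤ) : ℝ :=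
  if lucV t n p ≡ t [ZMOD (p : ℤ) ^ 2] then 1 else 0

private theorem ind_sq (n : ℤ) (p : ℕ) (t : ℤ) : ind n p t * ind n p t = ind n p t := by
  unfold ind; split_ifs <;> norm_num

private theorem cnt_ind (X : ℕ) (P : ℤ → Prop) (f : ℤ → ℝ) (h1 : ∀ t, P t → f t = 1)
    (h0 : ∀ t, ¬ P t → f t = 0) : (cnt X P : ℝ) = ∑ t ∈ Finset.Icc (1 : ℤ) X, f t := by
  classical
  unfold cnt
  have h : {t : ℤ | 1 ≤ t ∧ t ≤ X ∧ P t} = ((Finset.Icc (1 : ℤ) X).filter P : Finset ℤ) := by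
    ext t; simp [and_assoc]
  rw [h, Set.ncard_coe_finset, Finset.card_filter]
  push_cast
  refine Finset.sum_congr rfl fun t _ => ?_
  by_cases ht : P t
  · rw [if_pos ht, h1 t ht]
  · rw [if_neg ht, h0 t ht]

private theorem cntS (hCNT : StCNT) (n : ℤ) (S : Finset ℕ) (hS : ∀ p ∈ S, p.Prime) (X : ℕ) :
    |(∑ t ∈ Finset.Icc (1 : ℤ) X, ∏ p ∈ S, ind n p t) - X / (∏ p ∈ S, (p : ℝ))| ≤
      ∏ p ∈ S, (p : ℝ) := by
  classical
  have h := hCNT n S 1 0 (fun _ => 0) X one_pos (fun p hp => ⟨hS p hp, fun hd => by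
    have h1 := Nat.le_of_dvd one_pos hd
    have h2 := (hS p hp).two_le
    nlinarith⟩)
  rw [cnt_ind X _ (fun t => ∏ p ∈ S, ind n p t)
    (fun t ht => Finset.prod_eq_one fun p hp => ?_)
    (fun t ht => ?_)] at h
  · simpa using h
  · unfold ind
    have h2 := ht.2 p hp
    rw [mul_zero, add_zero] at h2
    exact if_pos h2
  · by_contra hne
    apply ht
    refine ⟨by rw [Nat.cast_one]; exact Int.modEq_one, fun p hp => ?_⟩
    rw [mul_zero, add_zero]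
    by_contra h3
    exact hne (Finset.prod_eq_zero hp (if_neg h3))

private theorem cnt1 (hCNT : StCNT) (n : ℤ) (p : ℕ) (hp : p.Prime) (X : ℕ) :
    |(∑ t ∈ Finset.Icc (1 : ℤ) X, ind n p t) - X * (1 / (p : ℝ))| ≤ p := by
  have h := cntS hCNT n {p} (fun q hq => by
    rw [Finset.mem_singleton] at hq; subst hq; exact hp) X
  simp only [Finset.prod_singleton] at h
  rwa [mul_one_div]

private theorem cnt2 (hCNT : StCNT) (n : ℤ) (p q : ℕ) (hp : p.Prime) (hq : q.Prime)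
    (hpq : p ≠ q) (X : ℕ) :
    |(∑ t ∈ Finset.Icc (1 : ℤ) X, ind n p t * ind n q t) - X * (1 / (p : ℝ)) * (1 / (q : ℝ))| ≤
      (p : ℝ) * q := by
  have h := cntS hCNT n {p, q} (fun r hr => by
    rw [Finset.mem_insert, Finset.mem_singleton] at hr
    rcases hr with rfl | rfl
    · exact hp
    · exact hq) X
  simp only [Finset.prod_pair hpq] at h
  have e : (X : ℝ) * (1 / (p : ℝ)) * (1 / (q : ℝ)) = X / ((p : ℝ) * q) := by
    rw [mul_one_div, mul_one_div, div_div]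
  rwa [e]

private theorem om_eq (y : ℝ) (hy : 0 ≤ y) (t n : ℤ) :
    (om y t n : ℝ) = ∑ p ∈ PY ⌊y⌋₊, ind n p t := by
  classical
  unfold om ind PY
  have h : {p : ℕ | p.Prime ∧ (p : ℝ) ≤ y ∧ lucV t n p ≡ t [ZMOD (p : ℤ) ^ 2]} =
      (((Finset.Icc 1 ⌊y⌋₊).filter Nat.Prime).filter
        (fun p : ℕ => lucV t n p ≡ t [ZMOD (p : ℤ) ^ 2]) : Finset ℕ) := by
    ext p
    simp only [Set.mem_ofPred_eq, Finset.coe_filter, Finset.mem_filter, Finset.mem_Icc]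
    constructor
    · rintro ⟨h1, h2, h3⟩
      exact ⟨⟨⟨h1.one_le, Nat.le_floor h2⟩, h1⟩, h3⟩
    · rintro ⟨⟨⟨h1, h2⟩, h3⟩, h4⟩
      exact ⟨h3, (Nat.le_floor_iff hy).1 h2, h4⟩
  rw [h, Set.ncard_coe_finset, Finset.card_filter]
  push_cast
  refine Finset.sum_congr rfl fun p _ => ?_
  congr

/-- the variance -/
private theorem variance (hCNT : StCNT) (n : ℤ) (X Y : ℕ) :
    ∑ t ∈ Finset.Icc (1 : ℤ) X, ((∑ p ∈ PY Y, ind n p t) - ∑ p ∈ PY Y, 1 / (p : ℝ)) ^ 2 ≤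
      X * (∑ p ∈ PY Y, 1 / (p : ℝ)) + 2 * (∑ p ∈ PY Y, (p : ℝ)) ^ 2 +
        2 * (∑ p ∈ PY Y, 1 / (p : ℝ)) * ∑ p ∈ PY Y, (p : ℝ) := by
  classical
  have hPY : ∀ p ∈ PY Y, p.Prime := fun p hp => (Finset.mem_filter.1 hp).2
  obtain ⟨L, hL⟩ : ∃ L : ℝ, L = ∑ p ∈ PY Y, 1 / (p : ℝ) := ⟨_, rfl⟩
  obtain ⟨S, hS⟩ : ∃ S : ℝ, S = ∑ p ∈ PY Y, (p : ℝ) := ⟨_, rfl⟩
  rw [← hL, ← hS]
  have hL0 : 0 ≤ L := by rw [hL]; exact Finset.sum_nonneg fun p _ => by positivity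
  have hS0 : 0 ≤ S := by rw [hS]; exact Finset.sum_nonneg fun p _ => by positivity
  have hX0 : (0 : ℝ) ≤ X := Nat.cast_nonneg X
  -- first moment
  have h1 : X * L - S ≤ ∑ t ∈ Finset.Icc (1 : ℤ) X, ∑ p ∈ PY Y, ind n p t := by
    rw [Finset.sum_comm, hL, hS, Finset.mul_sum, ← Finset.sum_sub_distrib]
    refine Finset.sum_le_sum fun p hp => ?_
    have := (abs_le.1 (cnt1 hCNT n p (hPY p hp) X)).1
    linarith
  -- second moment
  have h2 : ∑ t ∈ Finset.Icc (1 : ℤ) X, (∑ p ∈ PY Y, ind n p t) ^ 2 ≤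
      X * L ^ 2 + X * L + (S ^ 2 + S) := by
    have e1 : ∑ t ∈ Finset.Icc (1 : ℤ) X, (∑ p ∈ PY Y, ind n p t) ^ 2 =
        ∑ p ∈ PY Y, ∑ q ∈ PY Y, ∑ t ∈ Finset.Icc (1 : ℤ) X, ind n p t * ind n q t := by
      rw [Finset.sum_congr rfl fun t _ => by rw [sq, Finset.sum_mul_sum]]
      rw [Finset.sum_comm]
      refine Finset.sum_congr rfl fun p _ => ?_
      rw [Finset.sum_comm]
    have e2 : ∀ p ∈ PY Y, ∀ q ∈ PY Y, ∑ t ∈ Finset.Icc (1 : ℤ) X, ind n p t * ind n q t ≤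
        (X * ((1 / (p : ℝ)) * (1 / (q : ℝ))) + (p : ℝ) * q) +
          (if p = q then X * (1 / (p : ℝ)) + p else 0) := by
      intro p hp q hq
      by_cases hpq : p = q
      · subst hpq
        rw [if_pos rfl]
        have h3 := (abs_le.1 (cnt1 hCNT n p (hPY p hp) X)).2
        simp only [ind_sq]
        have h4 : 0 ≤ (X : ℝ) * ((1 / (p : ℝ)) * (1 / (p : ℝ))) + (p : ℝ) * p := by positivity
        linarith
      · rw [if_neg hpq, add_zero]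
        have h3 := (abs_le.1 (cnt2 hCNT n p q (hPY p hp) (hPY q hq) hpq X)).2
        linarith
    rw [e1]
    refine (Finset.sum_le_sum fun p hp => Finset.sum_le_sum fun q hq => e2 p hp q hq).trans
      (le_of_eq ?_)
    simp only [Finset.sum_add_distrib, Finset.sum_ite_eq]
    have e3 : ∑ p ∈ PY Y, ∑ q ∈ PY Y, (X : ℝ) * ((1 / (p : ℝ)) * (1 / (q : ℝ))) =
        X * L ^ 2 := by
      rw [sq, hL, Finset.sum_mul_sum, Finset.mul_sum]
      refine Finset.sum_congr rfl fun p _ => ?_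
      rw [Finset.mul_sum]
    have e4 : ∑ p ∈ PY Y, ∑ q ∈ PY Y, (p : ℝ) * q = S ^ 2 := by
      rw [sq, hS, Finset.sum_mul_sum]
    have e5 : ∑ p ∈ PY Y, (if p ∈ PY Y then (X : ℝ) * (1 / (p : ℝ)) + p else 0) = X * L + S := by
      rw [hL, hS, Finset.mul_sum, ← Finset.sum_add_distrib]
      exact Finset.sum_congr rfl fun p hp => if_pos hp
    rw [e3, e4, e5]
    ring
  -- `S ≤ S²`
  have h3 : S ≤ S ^ 2 := by
    rcases (PY Y).eq_empty_or_nonempty with he | ⟨p, hp⟩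
    · rw [hS, he]; simp
    · have h4 : (1 : ℝ) ≤ S := by
        rw [hS]
        calc (1 : ℝ) ≤ p := by exact_mod_cast (hPY p hp).one_le
          _ ≤ _ := Finset.single_le_sum (f := fun p : ℕ => (p : ℝ))
              (fun q _ => Nat.cast_nonneg q) hp
      nlinarith
  have h5 : ∑ t ∈ Finset.Icc (1 : ℤ) X, ((∑ p ∈ PY Y, ind n p t) - L) ^ 2 =
      ∑ t ∈ Finset.Icc (1 : ℤ) X, (∑ p ∈ PY Y, ind n p t) ^ 2 -
        2 * L * (∑ t ∈ Finset.Icc (1 : ℤ) X, ∑ p ∈ PY Y, ind n p t) + X * L ^ 2 := by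
    have e : ∀ t : ℤ, ((∑ p ∈ PY Y, ind n p t) - L) ^ 2 = (∑ p ∈ PY Y, ind n p t) ^ 2 -
        2 * L * (∑ p ∈ PY Y, ind n p t) + L ^ 2 := fun t => by ring
    simp only [e]
    rw [Finset.sum_add_distrib, Finset.sum_sub_distrib, ← Finset.mul_sum, Finset.sum_const,
      Int.card_Icc]
    simp
  rw [h5]
  nlinarith [mul_le_mul_of_nonneg_left h1 (by linarith : (0 : ℝ) ≤ 2 * L)]

private theorem loglog16 : 1 ≤ Real.log (Real.log 16) := by
  have h0 : Real.exp 1 ≤ Real.log 16 := by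
    have h1 : Real.log 16 = 4 * Real.log 2 := by
      rw [show (16 : ℝ) = 2 ^ 4 by norm_num, Real.log_pow]; norm_num
    rw [h1]
    have := Real.log_two_gt_d9
    have := Real.exp_one_lt_d9
    linarith
  rw [Real.le_log_iff_exp_le ((Real.exp_pos 1).trans_le h0)]
  exact h0

private theorem mert : ∃ C : ℝ, 0 < C ∧ ∀ X : ℕ, 16 ≤ X →
    |(∑ p ∈ PY ⌊(X : ℝ) ^ ((1 : ℝ) / 5)⌋₊, 1 / (p : ℝ)) - Real.log (Real.log X)| ≤ C := by
  obtain ⟨C, hC, h⟩ := Pool.Agent.Helper15.AB.hMT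
  refine ⟨C + 10, by linarith, fun X hX => ?_⟩
  have hXR : (16 : ℝ) ≤ X := by exact_mod_cast hX
  have hX0 : (0 : ℝ) < X := by linarith
  have hl16 : Real.log 16 ≤ Real.log X := Real.log_le_log (by norm_num) hXR
  have hl0 : 0 < Real.log 16 := Real.log_pos (by norm_num)
  have hll : 1 ≤ Real.log (Real.log X) :=
    loglog16.trans (Real.log_le_log hl0 hl16)
  rcases le_or_gt 3 ((X : ℝ) ^ ((1 : ℝ) / 5)) with h3 | h3
  · have h4 := h _ h3
    have e : Real.log (Real.log ((X : ℝ) ^ ((1 : ℝ) / 5))) =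
        Real.log (Real.log X) - Real.log 5 := by
      rw [Real.log_rpow hX0, one_div, inv_mul_eq_div, Real.log_div (by linarith) (by norm_num)]
    rw [e] at h4
    have h5 : 0 ≤ Real.log 5 := Real.log_nonneg (by norm_num)
    have h6 : Real.log 5 ≤ 5 - 1 := Real.log_le_sub_one_of_pos (by norm_num)
    unfold PY
    rw [abs_le] at h4 ⊢
    constructor <;> linarith [h4.1, h4.2]
  · have h4 : ⌊(X : ℝ) ^ ((1 : ℝ) / 5)⌋₊ ≤ 2 := by
      have : ⌊(X : ℝ) ^ ((1 : ℝ) / 5)⌋₊ < 3 := by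
        rw [Nat.floor_lt (by positivity)]
        exact_mod_cast h3
      omega
    have h5 : (X : ℝ) ≤ 243 := by
      have h6 : ((X : ℝ) ^ ((1 : ℝ) / 5)) ^ (5 : ℕ) = X := by
        rw [← Real.rpow_natCast, ← Real.rpow_mul hX0.le]
        norm_num
      rw [← h6]
      have h7 := pow_le_pow_left₀ (by positivity) h3.le 5
      norm_num at h7 ⊢
      exact h7
    have h6 : Real.log (Real.log X) ≤ 9 := by
      have h7 : Real.log X ≤ 10 := by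
        have h8 : Real.log X ≤ Real.log 256 := Real.log_le_log hX0 (by linarith)
        have h9 : Real.log 256 = 8 * Real.log 2 := by
          rw [show (256 : ℝ) = 2 ^ 8 by norm_num, Real.log_pow]; norm_num
        have := Real.log_two_lt_d9
        linarith
      have h8 : Real.log (Real.log X) ≤ Real.log X - 1 :=
        Real.log_le_sub_one_of_pos (by linarith)
      linarith
    have h7 : 0 ≤ ∑ p ∈ PY ⌊(X : ℝ) ^ ((1 : ℝ) / 5)⌋₊, 1 / (p : ℝ) :=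
      Finset.sum_nonneg fun p _ => by positivity
    have h8 : ∑ p ∈ PY ⌊(X : ℝ) ^ ((1 : ℝ) / 5)⌋₊, 1 / (p : ℝ) ≤ 2 := by
      calc ∑ p ∈ PY ⌊(X : ℝ) ^ ((1 : ℝ) / 5)⌋₊, 1 / (p : ℝ)
          ≤ ∑ p ∈ PY ⌊(X : ℝ) ^ ((1 : ℝ) / 5)⌋₊, (1 : ℝ) := by
            refine Finset.sum_le_sum fun p hp => ?_
            have hp1 : (1 : ℝ) ≤ p := by
              exact_mod_cast (Finset.mem_filter.1 hp).2.one_le
            rw [div_le_one (by linarith)]
            exact hp1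
        _ = ((PY ⌊(X : ℝ) ^ ((1 : ℝ) / 5)⌋₊).card : ℝ) := by simp
        _ ≤ ((Finset.Icc 1 ⌊(X : ℝ) ^ ((1 : ℝ) / 5)⌋₊).card : ℝ) := by
            exact_mod_cast Finset.card_filter_le _ _
        _ ≤ 2 := by
            rw [Nat.card_Icc]
            exact_mod_cast (by omega : ⌊(X : ℝ) ^ ((1 : ℝ) / 5)⌋₊ + 1 - 1 ≤ 2)
    rw [abs_le]
    constructor <;> linarith

theorem hTUR (hCNT : StCNT) : StTUR := by
  obtain ⟨C, hC, hM⟩ := mert
  refine ⟨2 * (5 + C + C ^ 2), by positivity, fun n X hX => ?_⟩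
  have hXR : (16 : ℝ) ≤ X := by exact_mod_cast hX
  have hX0 : (0 : ℝ) < X := by linarith
  have hl16 : Real.log 16 ≤ Real.log X := Real.log_le_log (by norm_num) hXR
  have hll : 1 ≤ Real.log (Real.log X) :=
    loglog16.trans (Real.log_le_log (Real.log_pos (by norm_num)) hl16)
  obtain ⟨ℓ, hℓ⟩ : ∃ ℓ : ℝ, ℓ = Real.log (Real.log X) := ⟨_, rfl⟩
  obtain ⟨Y, hY⟩ : ∃ Y : ℕ, Y = ⌊(X : ℝ) ^ ((1 : ℝ) / 5)⌋₊ := ⟨_, rfl⟩
  have hM1 := hM X hX
  have hV := variance hCNT n X Y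
  rw [← hY, ← hℓ] at hM1
  rw [← hℓ] at hll
  have e1 : ∀ t : ℤ, (om ((X : ℝ) ^ ((1 : ℝ) / 5)) t n : ℝ) = ∑ p ∈ PY Y, ind n p t := by
    intro t
    rw [om_eq _ (by positivity), hY]
  simp only [e1]
  rw [← hℓ]
  obtain ⟨L, hL⟩ : ∃ L : ℝ, L = ∑ p ∈ PY Y, 1 / (p : ℝ) := ⟨_, rfl⟩
  obtain ⟨S, hS⟩ : ∃ S : ℝ, S = ∑ p ∈ PY Y, (p : ℝ) := ⟨_, rfl⟩
  rw [← hL] at hM1
  rw [← hL, ← hS] at hV
  -- sizes
  have hY5 : (Y : ℝ) ^ 5 ≤ X := by
    have h6 : ((X : ℝ) ^ ((1 : ℝ) / 5)) ^ (5 : ℕ) = X := by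
      rw [← Real.rpow_natCast, ← Real.rpow_mul hX0.le]
      norm_num
    have h7 : (Y : ℝ) ≤ (X : ℝ) ^ ((1 : ℝ) / 5) := by
      rw [hY]; exact Nat.floor_le (by positivity)
    calc (Y : ℝ) ^ 5 ≤ ((X : ℝ) ^ ((1 : ℝ) / 5)) ^ (5 : ℕ) :=
          pow_le_pow_left₀ (Nat.cast_nonneg Y) h7 5
      _ = X := h6
  have hcard : ((PY Y).card : ℝ) ≤ Y := by
    have h1 : (PY Y).card ≤ (Finset.Icc 1 Y).card := Finset.card_filter_le _ _
    rw [Nat.card_Icc] at h1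
    exact_mod_cast (by omega : (PY Y).card ≤ Y)
  have hYn : (0 : ℝ) ≤ Y := Nat.cast_nonneg Y
  have hS1 : S ≤ (Y : ℝ) ^ 2 := by
    calc S ≤ ∑ p ∈ PY Y, (Y : ℝ) := by
          rw [hS]
          refine Finset.sum_le_sum fun p hp => ?_
          exact_mod_cast (Finset.mem_Icc.1 (Finset.mem_filter.1 hp).1).2
      _ = ((PY Y).card : ℝ) * Y := by rw [Finset.sum_const, nsmul_eq_mul]
      _ ≤ Y * Y := by gcongr
      _ = (Y : ℝ) ^ 2 := by ring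
  have hL1 : L ≤ Y := by
    calc L ≤ ∑ p ∈ PY Y, (1 : ℝ) := by
          rw [hL]
          refine Finset.sum_le_sum fun p hp => ?_
          have hp1 : (1 : ℝ) ≤ p := by
            exact_mod_cast (Finset.mem_filter.1 hp).2.one_le
          rw [div_le_one (by linarith)]
          exact hp1
      _ = ((PY Y).card : ℝ) := by simp
      _ ≤ Y := hcard
  have hL0 : 0 ≤ L := by rw [hL]; exact Finset.sum_nonneg fun p _ => by positivity
  have hS0 : 0 ≤ S := by rw [hS]; exact Finset.sum_nonneg fun p _ => by positivity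
  have hpow : (Y : ℝ) ^ 4 ≤ X ∧ (Y : ℝ) ^ 3 ≤ X := by
    rcases Nat.eq_zero_or_pos Y with h0 | h0
    · rw [h0]
      constructor <;> norm_num
    · have h1 : (1 : ℝ) ≤ Y := by exact_mod_cast h0
      exact ⟨(pow_le_pow_right₀ h1 (by norm_num)).trans hY5,
        (pow_le_pow_right₀ h1 (by norm_num)).trans hY5⟩
  have hSS : S ^ 2 ≤ X := by
    calc S ^ 2 ≤ ((Y : ℝ) ^ 2) ^ 2 := pow_le_pow_left₀ hS0 hS1 2
      _ = (Y : ℝ) ^ 4 := by ring
      _ ≤ X := hpow.1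
  have hLS : L * S ≤ X := by
    calc L * S ≤ Y * (Y : ℝ) ^ 2 := mul_le_mul hL1 hS1 hS0 hYn
      _ = (Y : ℝ) ^ 3 := by ring
      _ ≤ X := hpow.2
  have hV2 : ∑ t ∈ Finset.Icc (1 : ℤ) X, ((∑ p ∈ PY Y, ind n p t) - L) ^ 2 ≤ X * (L + 4) := by
    nlinarith
  have hstep : ∑ t ∈ Finset.Icc (1 : ℤ) X, ((∑ p ∈ PY Y, ind n p t) - ℓ) ^ 2 ≤
      2 * (X * (L + 4)) + 2 * (X * (L - ℓ) ^ 2) := by
    calc ∑ t ∈ Finset.Icc (1 : ℤ) X, ((∑ p ∈ PY Y, ind n p t) - ℓ) ^ 2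
        ≤ ∑ t ∈ Finset.Icc (1 : ℤ) X, (2 * ((∑ p ∈ PY Y, ind n p t) - L) ^ 2 +
          2 * (L - ℓ) ^ 2) := by
          refine Finset.sum_le_sum fun t _ => ?_
          nlinarith [sq_nonneg ((∑ p ∈ PY Y, ind n p t) - L - (L - ℓ))]
      _ = 2 * (∑ t ∈ Finset.Icc (1 : ℤ) X, ((∑ p ∈ PY Y, ind n p t) - L) ^ 2) +
          2 * (X * (L - ℓ) ^ 2) := by
          rw [Finset.sum_add_distrib, ← Finset.mul_sum, Finset.sum_const, Int.card_Icc]
          simp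
          ring
      _ ≤ _ := by linarith
  refine hstep.trans ?_
  have h1 : (L - ℓ) ^ 2 ≤ C ^ 2 := by
    rw [← sq_abs (L - ℓ)]
    exact pow_le_pow_left₀ (abs_nonneg _) hM1 2
  have h2 : L ≤ ℓ + C := by linarith [(abs_le.1 hM1).2]
  have h3 : 2 * (X * (L + 4)) + 2 * (X * (L - ℓ) ^ 2) ≤ 2 * (X * (ℓ + C + 4 + C ^ 2)) := by
    nlinarith
  refine h3.trans ?_
  have h4 : ℓ + C + 4 + C ^ 2 ≤ (5 + C + C ^ 2) * ℓ := by
    nlinarith [mul_nonneg hC.le (sub_nonneg.2 hll), mul_nonneg (sq_nonneg C) (sub_nonneg.2 hll)]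
  calc 2 * (X * (ℓ + C + 4 + C ^ 2)) ≤ 2 * (X * ((5 + C + C ^ 2) * ℓ)) := by gcongr
    _ = 2 * (5 + C + C ^ 2) * (X * ℓ) := by ring

end Pool.Agent.Helper62.WS
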